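import Pool.Agent.N64.AF.Defs
import Pool.Agent.Y129.Asym

/-!
# E0: the numerical part
-/

set_option autoImplicit false

open CategoryTheory Limits MonoidalCategory Module Filter Topology
open Pool.Agent.Y112.SR Pool.Agent.Y112.KD
open Pool.Agent.Y116.MT (tr)

namespace Pool.Agent.N140.AF

variable {β : ℕ → ℕ} {b : ℕ}

lemma cmpSeq_even (β : ℕ → ℕ) (b n : ℕ) : Pool.Agent.N64.AF.cmpSeq β b (2 * n) = β (2 * n) := by
  rw [Pool.Agent.N64.AF.cmpSeq, Nat.mul_mod_right, pow_zero, one_mul,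
    Nat.mul_div_cancel_left _ two_pos]

lemma cmpSeq_odd (β : ℕ → ℕ) (b n : ℕ) :
    Pool.Agent.N64.AF.cmpSeq β b (2 * n + 1) = b * β (2 * n) := by
  have h1 : (2 * n + 1) % 2 = 1 := by omega
  have h2 : (2 * n + 1) / 2 = n := by omega
  rw [Pool.Agent.N64.AF.cmpSeq, h1, h2, pow_one]

lemma pos_even (hb : 0 < b) (h3 : ∀ n, (b ^ 2) ^ n ≤ (n + 1) ^ (b ^ 2) * β (2 * n)) (n : ℕ) :
    0 < β (2 * n) := by
  by_contra h
  have h4 : β (2 * n) = 0 := by omega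
  have h1 := h3 n
  rw [h4, mul_zero] at h1
  have h5 : 0 < (b ^ 2) ^ n := by positivity
  omega

lemma tendsto_even (hb : 0 < b)
    (h1 : ∀ n, β (2 * n + 2) ^ 2 ≤ β (2 * n) * β (2 * n + 4))
    (h2 : ∀ n, β (2 * n + 2) ≤ b ^ 2 * β (2 * n))
    (h3 : ∀ n, (b ^ 2) ^ n ≤ (n + 1) ^ (b ^ 2) * β (2 * n)) (k : ℕ) :
    Tendsto (fun n => (β (2 * (n + k)) : ℝ) / β (2 * n)) atTop (𝓝 (((b : ℝ) ^ 2) ^ k)) := by
  have hp : ∀ n, 0 < β (2 * n + 2) := fun n => pos_even hb h3 (n + 1)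
  have h := Pool.Agent.Y129.tendsto_quot_add (α := fun n => β (2 * n + 2)) hp
    (Pool.Agent.Y129.tendsto_quot (α := fun n => β (2 * n + 2)) (q := b ^ 2) (c := b ^ 2) hp
      (fun n => h1 (n + 1)) (fun n => h2 (n + 1)) (fun n => h3 (n + 1))) k
  push_cast at h
  rw [← tendsto_add_atTop_iff_nat 1]
  refine h.congr ?_
  intro n
  have e1 : 2 * (n + 1 + k) = 2 * (n + k) + 2 := by ring
  have e2 : 2 * (n + 1) = 2 * n + 2 := by ring
  rw [e1, e2]

lemma tendsto_next (hb : 0 < b)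
    (h1 : ∀ n, β (2 * n + 2) ^ 2 ≤ β (2 * n) * β (2 * n + 4))
    (h2 : ∀ n, β (2 * n + 2) ≤ b ^ 2 * β (2 * n))
    (h3 : ∀ n, (b ^ 2) ^ n ≤ (n + 1) ^ (b ^ 2) * β (2 * n))
    (h4 : ∀ n, β (2 * n + 1) ≤ b * β (2 * n))
    (h5 : ∀ n, β (2 * n + 2) ≤ β (2 * n + 1) + (b ^ 2 - b) * β (2 * n)) :
    Tendsto (fun n => (β (2 * n + 1) : ℝ) / β (2 * n)) atTop (𝓝 (b : ℝ)) := by
  have hpos : ∀ n, (0 : ℝ) < β (2 * n) := fun n => by exact_mod_cast pos_even hb h3 n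
  have hbb : b ≤ b ^ 2 := by nlinarith
  have h6 : Tendsto (fun n => (β (2 * (n + 1)) : ℝ) / β (2 * n) - ((b : ℝ) ^ 2 - b)) atTop
      (𝓝 (b : ℝ)) := by
    have h7 := (tendsto_even hb h1 h2 h3 1).sub_const ((b : ℝ) ^ 2 - b)
    have e : ((b : ℝ) ^ 2) ^ 1 - ((b : ℝ) ^ 2 - b) = b := by ring
    rwa [e] at h7
  refine tendsto_of_tendsto_of_tendsto_of_le_of_le h6 tendsto_const_nhds ?_ ?_
  · intro n
    have h8 : ((β (2 * n + 2) : ℕ) : ℝ) ≤
        ((β (2 * n + 1) + (b ^ 2 - b) * β (2 * n) : ℕ) : ℝ) := by exact_mod_cast h5 n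
    rw [Nat.cast_add, Nat.cast_mul, Nat.cast_sub hbb, Nat.cast_pow] at h8
    have e2 : 2 * (n + 1) = 2 * n + 2 := by ring
    change (β (2 * (n + 1)) : ℝ) / β (2 * n) - ((b : ℝ) ^ 2 - b) ≤
      (β (2 * n + 1) : ℝ) / β (2 * n)
    rw [e2, sub_le_iff_le_add, div_add' _ _ _ (hpos n).ne']
    exact div_le_div_of_nonneg_right h8 (hpos n).le
  · intro n
    change (β (2 * n + 1) : ℝ) / β (2 * n) ≤ b
    rw [div_le_iff₀ (hpos n)]
    exact_mod_cast h4 n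

end Pool.Agent.N140.AF

namespace Pool.Agent.N64.AF

universe v u w t

/-- E0: the numerical part. -/
theorem tendsto_cmpSeq {β : ℕ → ℕ} {b : ℕ} (hb : 0 < b)
    (h1 : ∀ n, β (2 * n + 2) ^ 2 ≤ β (2 * n) * β (2 * n + 4))
    (h2 : ∀ n, β (2 * n + 2) ≤ b ^ 2 * β (2 * n))
    (h3 : ∀ n, (b ^ 2) ^ n ≤ (n + 1) ^ (b ^ 2) * β (2 * n))
    (h4 : ∀ n, β (2 * n + 1) ≤ b * β (2 * n))
    (h5 : ∀ n, β (2 * n + 2) ≤ β (2 * n + 1) + (b ^ 2 - b) * β (2 * n)) :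
    (∀ n, 0 < cmpSeq β b n) ∧ ∀ j : ℕ,
      Tendsto (fun n => (β (n + j) : ℝ) / cmpSeq β b n) atTop (𝓝 ((b : ℝ) ^ j)) := by
  have hp := Pool.Agent.N140.AF.pos_even hb h3
  refine ⟨fun n => Nat.mul_pos (pow_pos hb _) (hp _), fun j => ?_⟩
  have hpos : ∀ n, (0 : ℝ) < β (2 * n) := fun n => by exact_mod_cast hp n
  have hb' : (0 : ℝ) < b := by exact_mod_cast hb
  have heven := Pool.Agent.N140.AF.tendsto_even hb h1 h2 h3
  have hnext := Pool.Agent.N140.AF.tendsto_next hb h1 h2 h3 h4 h5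
  have hodd : ∀ k : ℕ, Tendsto (fun n => (β (2 * (n + k) + 1) : ℝ) / β (2 * n)) atTop
      (𝓝 ((b : ℝ) ^ (2 * k + 1))) := by
    intro k
    have h6 := (hnext.comp (tendsto_add_atTop_nat k)).mul (heven k)
    have e1 : (b : ℝ) * ((b : ℝ) ^ 2) ^ k = (b : ℝ) ^ (2 * k + 1) := by
      rw [← pow_mul, ← pow_succ']
    rw [e1] at h6
    refine h6.congr ?_
    intro n
    simp only [Function.comp_apply]
    rw [div_mul_div_cancel₀ (hpos _).ne']
  apply Pool.Agent.Y129.tendsto_of_even_odd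
  · -- `n` even
    rcases Nat.even_or_odd' j with ⟨k, hk | hk⟩
    · subst hk
      have h6 := heven k
      rw [← pow_mul] at h6
      refine h6.congr ?_
      intro n
      rw [Pool.Agent.N140.AF.cmpSeq_even]
      congr 3
      ring
    · subst hk
      refine (hodd k).congr ?_
      intro n
      rw [Pool.Agent.N140.AF.cmpSeq_even]
      congr 3
      ring
  · -- `n` odd
    rcases Nat.even_or_odd' j with ⟨k, hk | hk⟩
    · subst hk
      have h6 := (hodd k).div_const (b : ℝ)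
      have e1 : (b : ℝ) ^ (2 * k + 1) / b = (b : ℝ) ^ (2 * k) := by
        rw [pow_succ, mul_div_assoc, div_self hb'.ne', mul_one]
      rw [e1] at h6
      refine h6.congr ?_
      intro n
      rw [Pool.Agent.N140.AF.cmpSeq_odd, div_div, Nat.cast_mul, mul_comm (β (2 * n) : ℝ)]
      congr 3
      ring
    · subst hk
      have h6 := (heven (k + 1)).div_const (b : ℝ)
      have e1 : ((b : ℝ) ^ 2) ^ (k + 1) / b = (b : ℝ) ^ (2 * k + 1) := by
        rw [← pow_mul, show 2 * (k + 1) = (2 * k + 1) + 1 by ring, pow_succ, mul_div_assoc,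
          div_self hb'.ne', mul_one]
      rw [e1] at h6
      refine h6.congr ?_
      intro n
      rw [Pool.Agent.N140.AF.cmpSeq_odd, div_div, Nat.cast_mul, mul_comm (β (2 * n) : ℝ)]
      congr 3
      ring

end Pool.Agent.N64.AF
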